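import Pool.Agent.H.MP_dd7d0c_lc.A

namespace Pool.Agent.Results.MP_dd7d0c_lc.Poly

open Pool.Agent.Lib.CX Pool.Agent.H.MP_dd7d0c_lc

theorem result : InP fun a : {a : Gr // IsPartialOrder (Fin a.n) a.arc} => IsDownPoset a.1.arc := poly

end Pool.Agent.Results.MP_dd7d0c_lc.Poly
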